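import Mathlib

set_option linter.unusedSectionVars false

/-!
# `γ`-edge-critical versus `ir`-edge-critical graphs

Both questions are answered YES by explicit connected graphs: a graph on 12 vertices with `γ = 4`,
`ir = 3` that is `γ`-edge-critical but not `ir`-edge-critical, and a graph on 10 vertices with
`γ = ir = 3` that is `ir`-edge-critical but not `γ`-edge-critical.
-/

namespace Pool.Agent.Results.MP_7f565b_co.TwoClasses

variable {V : Type*}

/-- The closed neighbourhood `N[v]`. -/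
def closedNbhd (G : SimpleGraph V) (v : V) : Set V := insert v (G.neighborSet v)

/-- `S` is a dominating set of `G`. -/
def Dominating (G : SimpleGraph V) (S : Finset V) : Prop :=
  ∀ v, ∃ s ∈ S, v ∈ closedNbhd G s

/-- `S` is irredundant: every `s ∈ S` has a private neighbour, i.e. a vertex
`w ∈ N[s] \ N[S \ {s}]`. -/
def Irredundant (G : SimpleGraph V) (S : Finset V) : Prop :=
  ∀ s ∈ S, ∃ w, w ∈ closedNbhd G s ∧ ∀ t ∈ S, t ≠ s → w ∉ closedNbhd G t

/-- The domination number: the least size of a dominating set. -/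
noncomputable def gamma (G : SimpleGraph V) : ℕ :=
  sInf {k : ℕ | ∃ S : Finset V, Dominating G S ∧ S.card = k}

/-- The lower irredundance number: the least size of a maximal (under inclusion) irredundant
set. -/
noncomputable def ir (G : SimpleGraph V) : ℕ :=
  sInf {k : ℕ | ∃ S : Finset V, Maximal (Irredundant G) S ∧ S.card = k}

/-- `G` is `π`-edge-critical: adding any missing edge strictly lowers `π`. -/
def EdgeCritical (π : SimpleGraph V → ℕ) (G : SimpleGraph V) : Prop :=
  ∀ u v : V, u ≠ v → ¬ G.Adj u v → π (G ⊔ SimpleGraph.edge u v) < π G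

/-! ### Boolean versions -/

/-- `c` is the Boolean matrix of closed neighbourhoods of `G`. -/
def Rep (G : SimpleGraph V) (c : V → V → Bool) : Prop :=
  ∀ a b, b ∈ closedNbhd G a ↔ c a b = true

variable [DecidableEq V]

/-- closed neighbourhood matrix after adding the edge `uv`. -/
def cadd (c : V → V → Bool) (u v : V) (a b : V) : Bool :=
  c a b || (decide (a = u) && decide (b = v)) || (decide (a = v) && decide (b = u))

theorem rep_add {G : SimpleGraph V} {c : V → V → Bool} (h : Rep G c) {u v : V} (huv : u ≠ v) :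
    Rep (G ⊔ SimpleGraph.edge u v) (cadd c u v) := by
  intro a b
  have h1 := h a b
  simp only [closedNbhd, Set.mem_insert_iff, SimpleGraph.mem_neighborSet] at h1
  simp only [closedNbhd, Set.mem_insert_iff, SimpleGraph.mem_neighborSet, SimpleGraph.sup_adj,
    SimpleGraph.edge_adj, cadd, Bool.or_eq_true, Bool.and_eq_true, decide_eq_true_eq, ← h1]
  constructor
  · rintro (h | h | ⟨⟨h, h'⟩ | ⟨h, h'⟩, h2⟩)
    · exact Or.inl (Or.inl (Or.inl h))
    · exact Or.inl (Or.inl (Or.inr h))
    · exact Or.inl (Or.inr ⟨h, h'⟩)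
    · exact Or.inr ⟨h, h'⟩
  · rintro (((h | h) | ⟨h, h'⟩) | ⟨h, h'⟩)
    · exact Or.inl h
    · exact Or.inr (Or.inl h)
    · refine Or.inr (Or.inr ⟨Or.inl ⟨h, h'⟩, ?_⟩)
      rw [h, h']; exact huv
    · refine Or.inr (Or.inr ⟨Or.inr ⟨h, h'⟩, ?_⟩)
      rw [h, h']; exact huv.symm

def DomB (c : V → V → Bool) (S : Finset V) : Prop := ∀ v, ∃ s ∈ S, c s v = true

def IrrB (c : V → V → Bool) (S : Finset V) : Prop :=
  ∀ s ∈ S, ∃ w, c s w = true ∧ ∀ t ∈ S, t ≠ s → c t w = false

instance (c : V → V → Bool) (S : Finset V) [Fintype V] : Decidable (DomB c S) := by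
  unfold DomB; infer_instance

instance (c : V → V → Bool) (S : Finset V) [Fintype V] : Decidable (IrrB c S) := by
  unfold IrrB; infer_instance

theorem dom_iff {G : SimpleGraph V} {c : V → V → Bool} (h : Rep G c) (S : Finset V) :
    Dominating G S ↔ DomB c S := by
  unfold Dominating DomB
  simp only [h _ _]

theorem irr_iff {G : SimpleGraph V} {c : V → V → Bool} (h : Rep G c) (S : Finset V) :
    Irredundant G S ↔ IrrB c S := by
  unfold Irredundant IrrB
  simp only [h _ _, Bool.not_eq_true]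

theorem irr_mono {G : SimpleGraph V} {S T : Finset V} (h : Irredundant G T) (hST : S ⊆ T) :
    Irredundant G S := by
  intro s hs
  obtain ⟨w, hw, hw'⟩ := h s (hST hs)
  exact ⟨w, hw, fun t ht hts => hw' t (hST ht) hts⟩

/-- maximality can be tested by adding one vertex. -/
theorem maximal_iff {G : SimpleGraph V} (S : Finset V) :
    Maximal (Irredundant G) S ↔
      Irredundant G S ∧ ∀ v, v ∉ S → ¬ Irredundant G (insert v S) := by
  constructor
  · intro h
    refine ⟨h.prop, fun v hv hirr => ?_⟩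
    have := h.le_of_ge hirr (Finset.subset_insert v S)
    exact hv (this (Finset.mem_insert_self v S))
  · rintro ⟨h1, h2⟩
    refine ⟨h1, fun T hT hST => ?_⟩
    intro v hv
    by_contra hvS
    exact h2 v hvS (irr_mono hT (Finset.insert_subset hv hST))

section Fin

variable [Fintype V]

theorem gamma_le {G : SimpleGraph V} {c : V → V → Bool} (h : Rep G c) (S : Finset V)
    (hS : DomB c S) : gamma G ≤ S.card :=
  Nat.sInf_le ⟨S, (dom_iff h S).2 hS, rfl⟩

theorem le_gamma {G : SimpleGraph V} {k : ℕ}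
    (hk : ∀ S : Finset V, S.card < k → ¬ Dominating G S) : k ≤ gamma G := by
  have hne : {k : ℕ | ∃ S : Finset V, Dominating G S ∧ S.card = k}.Nonempty :=
    ⟨_, Finset.univ, fun v => ⟨v, Finset.mem_univ v, Set.mem_insert _ _⟩, rfl⟩
  obtain ⟨S, hS, hS'⟩ := Nat.sInf_mem hne
  by_contra hlt
  rw [not_le] at hlt
  unfold gamma at hlt
  rw [← hS'] at hlt
  exact hk S hlt hS

theorem ir_le {G : SimpleGraph V} {c : V → V → Bool} (h : Rep G c) (S : Finset V)
    (hS : IrrB c S) (hS' : ∀ v, v ∉ S → ¬ IrrB c (insert v S)) : ir G ≤ S.card := by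
  refine Nat.sInf_le ⟨S, (maximal_iff S).2 ⟨(irr_iff h S).2 hS, fun v hv => ?_⟩, rfl⟩
  rw [irr_iff h]
  exact hS' v hv

theorem le_ir {G : SimpleGraph V} {k : ℕ}
    (hk : ∀ S : Finset V, S.card < k → ¬ Maximal (Irredundant G) S) : k ≤ ir G := by
  have hne : {k : ℕ | ∃ S : Finset V, Maximal (Irredundant G) S ∧ S.card = k}.Nonempty := by
    have hfin : {S : Finset V | Irredundant G S}.Finite := Set.toFinite _
    have hemp : {S : Finset V | Irredundant G S}.Nonempty := ⟨∅, by intro s hs; simp at hs⟩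
    obtain ⟨S, hS⟩ := hfin.exists_maximal hemp
    exact ⟨S.card, S, hS, rfl⟩
  obtain ⟨S, hS, hS'⟩ := Nat.sInf_mem hne
  by_contra hlt
  rw [not_le] at hlt
  unfold ir at hlt
  rw [← hS'] at hlt
  exact hk S hlt hS

theorem card_lt_three [Nonempty V] (S : Finset V) (hS : S.card < 3) :
    S = ∅ ∨ ∃ a b, S = {a, b} := by
  have h : S.card = 0 ∨ S.card = 1 ∨ S.card = 2 := by omega
  rcases h with h | h | h
  · exact Or.inl (Finset.card_eq_zero.1 h)
  · obtain ⟨a, ha⟩ := Finset.card_eq_one.1 h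
    exact Or.inr ⟨a, a, by simp [ha]⟩
  · obtain ⟨a, b, _, hab⟩ := Finset.card_eq_two.1 h
    exact Or.inr ⟨a, b, hab⟩

theorem card_lt_four [Nonempty V] (S : Finset V) (hS : S.card < 4) :
    S = ∅ ∨ ∃ a b d, S = {a, b, d} := by
  by_cases h : S.card < 3
  · rcases card_lt_three S h with h | ⟨a, b, h⟩
    · exact Or.inl h
    · exact Or.inr ⟨a, a, b, by simp [h]⟩
  · have h3 : S.card = 3 := by omega
    obtain ⟨a, b, d, _, _, _, h⟩ := Finset.card_eq_three.1 h3
    exact Or.inr ⟨a, b, d, h⟩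

theorem four_le_gamma [Nonempty V] {G : SimpleGraph V} {c : V → V → Bool} (h : Rep G c)
    (hc : ∀ a b d : V, ¬ DomB c {a, b, d}) : 4 ≤ gamma G := by
  apply le_gamma
  intro S hS hdom
  rw [dom_iff h] at hdom
  rcases card_lt_four S hS with h0 | ⟨a, b, d, h1⟩
  · obtain ⟨v⟩ := ‹Nonempty V›
    obtain ⟨s, hs, _⟩ := hdom v
    rw [h0] at hs
    simp at hs
  · rw [h1] at hdom
    exact hc a b d hdom

theorem three_le_gamma [Nonempty V] {G : SimpleGraph V} {c : V → V → Bool} (h : Rep G c)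
    (hc : ∀ a b : V, ¬ DomB c {a, b}) : 3 ≤ gamma G := by
  apply le_gamma
  intro S hS hdom
  rw [dom_iff h] at hdom
  rcases card_lt_three S hS with h0 | ⟨a, b, h1⟩
  · obtain ⟨v⟩ := ‹Nonempty V›
    obtain ⟨s, hs, _⟩ := hdom v
    rw [h0] at hs
    simp at hs
  · rw [h1] at hdom
    exact hc a b hdom

theorem three_le_ir [Nonempty V] {G : SimpleGraph V} {c : V → V → Bool} (h : Rep G c)
    (hc : ∀ a b : V, IrrB c {a, b} → ∃ d, d ≠ a ∧ d ≠ b ∧ IrrB c {d, a, b}) : 3 ≤ ir G := by
  apply le_ir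
  intro S hS hmax
  rw [maximal_iff, irr_iff h] at hmax
  obtain ⟨h1, h2⟩ := hmax
  rcases card_lt_three S hS with h0 | ⟨a, b, hab⟩
  · obtain ⟨v⟩ := ‹Nonempty V›
    apply h2 v (by simp [h0])
    intro s hs
    rw [h0] at hs
    simp only [insert_empty_eq, Finset.mem_singleton] at hs
    refine ⟨s, Set.mem_insert _ _, fun t ht hts => ?_⟩
    rw [h0] at ht
    simp only [insert_empty_eq, Finset.mem_singleton] at ht
    exact absurd (ht.trans hs.symm) hts
  · rw [hab] at h1
    obtain ⟨d, hda, hdb, hd⟩ := hc a b h1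
    apply h2 d (by simp [hab, hda, hdb])
    rw [irr_iff h, hab]
    exact hd

end Fin

/-! ### The graph on 12 vertices -/

/-- Adjacency bit masks of the first graph. -/
def mask1 (v : Fin 12) : ℕ :=
  match v with
  | 0 => 466 | 1 => 2197 | 2 => 1426 | 3 => 1056 | 4 => 295 | 5 => 152
  | 6 => 1537 | 7 => 295 | 8 => 3221 | 9 => 2112 | 10 => 2380 | 11 => 1794

/-- The first graph, with the 25 edges
0-1 0-4 0-6 0-7 0-8 1-2 1-4 1-7 1-11 2-4 2-7 2-8 2-10 3-5 3-10 4-5 4-8 5-7 6-9 6-10 7-8 8-10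
8-11 9-11 10-11. -/
def G1 : SimpleGraph (Fin 12) where
  Adj u v := (mask1 u).testBit v = true
  symm := ⟨by decide +kernel⟩
  loopless := ⟨by decide +kernel⟩

def c1 (a b : Fin 12) : Bool := (mask1 a).testBit b || decide (b = a)

theorem rep1 : Rep G1 c1 := by
  intro a b
  simp only [closedNbhd, Set.mem_insert_iff, SimpleGraph.mem_neighborSet, c1, Bool.or_eq_true,
    decide_eq_true_eq, G1]
  exact or_comm

/-! ### The graph on 10 vertices -/

/-- Adjacency bit masks of the second graph. -/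
def mask2 (v : Fin 10) : ℕ :=
  match v with
  | 0 => 768 | 1 => 644 | 2 => 386 | 3 => 624 | 4 => 616 | 5 => 344
  | 6 => 184 | 7 => 838 | 8 => 677 | 9 => 411

/-- The second graph, with the 20 edges
0-8 0-9 1-2 1-7 1-9 2-7 2-8 3-4 3-5 3-6 3-9 4-5 4-6 4-9 5-6 5-8 6-7 7-8 7-9 8-9. -/
def G2 : SimpleGraph (Fin 10) where
  Adj u v := (mask2 u).testBit v = true
  symm := ⟨by decide +kernel⟩
  loopless := ⟨by decide +kernel⟩

def c2 (a b : Fin 10) : Bool := (mask2 a).testBit b || decide (b = a)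

theorem rep2 : Rep G2 c2 := by
  intro a b
  simp only [closedNbhd, Set.mem_insert_iff, SimpleGraph.mem_neighborSet, c2, Bool.or_eq_true,
    decide_eq_true_eq, G2]
  exact or_comm

/-! ### Computations -/

theorem comp1 : ∀ a b d : Fin 12, ¬ DomB c1 {a, b, d} := by decide +kernel

theorem comp2 : ∀ u v : Fin 12, c1 u v = false →
    ∃ b d, DomB (cadd c1 u v) {u, b, d} ∨ DomB (cadd c1 u v) {v, b, d} := by decide +kernel

theorem comp3 : IrrB c1 {0, 4, 8} ∧ ∀ v, v ∉ ({0, 4, 8} : Finset (Fin 12)) →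
    ¬ IrrB c1 (insert v {0, 4, 8}) := by decide +kernel

theorem comp4 : ∀ a b : Fin 12, IrrB (cadd c1 0 2) {a, b} →
    ∃ d, d ≠ a ∧ d ≠ b ∧ IrrB (cadd c1 0 2) {d, a, b} := by decide +kernel

theorem comp5 : ∀ a b : Fin 10, IrrB c2 {a, b} →
    ∃ d, d ≠ a ∧ d ≠ b ∧ IrrB c2 {d, a, b} := by decide +kernel

theorem comp6 : ∀ u v : Fin 10, c2 u v = false →
    ∃ a b, IrrB (cadd c2 u v) {a, b} ∧ ∀ w, w ∉ ({a, b} : Finset (Fin 10)) →
    ¬ IrrB (cadd c2 u v) (insert w {a, b}) := by decide +kernel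

theorem comp7 : DomB c2 {0, 1, 3} := by decide +kernel

theorem comp8 : ∀ a b : Fin 10, ¬ DomB (cadd c2 3 7) {a, b} := by decide +kernel

theorem conn1 : ∀ v : Fin 12, ∃ a b : Fin 12, c1 v a = true ∧ c1 a b = true ∧ c1 b 0 = true := by
  decide +kernel

theorem conn2 : ∀ v : Fin 10, ∃ a b : Fin 10, c2 v a = true ∧ c2 a b = true ∧ c2 b 0 = true := by
  decide +kernel

theorem reach_of {G : SimpleGraph V} {c : V → V → Bool} (h : Rep G c) {a b : V}
    (hab : c a b = true) : G.Reachable a b := by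
  have := (h a b).2 hab
  rcases this with h | h
  · rw [h]
  · exact SimpleGraph.Adj.reachable h

theorem connected1 : G1.Connected := by
  have h : ∀ v, G1.Reachable v 0 := by
    intro v
    obtain ⟨a, b, h1, h2, h3⟩ := conn1 v
    exact ((reach_of rep1 h1).trans (reach_of rep1 h2)).trans (reach_of rep1 h3)
  have : Nonempty (Fin 12) := ⟨0⟩
  exact ⟨fun u v => (h u).trans (h v).symm⟩

theorem connected2 : G2.Connected := by
  have h : ∀ v, G2.Reachable v 0 := by
    intro v
    obtain ⟨a, b, h1, h2, h3⟩ := conn2 v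
    exact ((reach_of rep2 h1).trans (reach_of rep2 h2)).trans (reach_of rep2 h3)
  have : Nonempty (Fin 10) := ⟨0⟩
  exact ⟨fun u v => (h u).trans (h v).symm⟩

theorem nonadj1 {u v : Fin 12} (huv : u ≠ v) (h : ¬ G1.Adj u v) : c1 u v = false := by
  rw [← Bool.not_eq_true, ← rep1 u v]
  rintro (h' | h')
  · exact huv h'.symm
  · exact h h'

theorem nonadj2 {u v : Fin 10} (huv : u ≠ v) (h : ¬ G2.Adj u v) : c2 u v = false := by
  rw [← Bool.not_eq_true, ← rep2 u v]
  rintro (h' | h')
  · exact huv h'.symm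
  · exact h h'

theorem crit1 : EdgeCritical gamma G1 := by
  intro u v huv hadj
  obtain ⟨b, d, h⟩ := comp2 u v (nonadj1 huv hadj)
  have h4 : 4 ≤ gamma G1 := four_le_gamma rep1 comp1
  have hr := rep_add rep1 huv
  have hcard : ∀ x y z : Fin 12, ({x, y, z} : Finset (Fin 12)).card ≤ 3 :=
    fun x y z => Finset.card_le_three
  rcases h with h | h
  · have := gamma_le hr _ h
    have := hcard u b d
    omega
  · have := gamma_le hr _ h
    have := hcard v b d
    omega

theorem not_crit1 : ¬ EdgeCritical ir G1 := by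
  intro h
  have h02 := h 0 2 (by decide) (by
    show ¬ ((mask1 0).testBit (2 : Fin 12) = true)
    decide +kernel)
  have hle : ir G1 ≤ 3 := le_trans (ir_le rep1 {0, 4, 8} comp3.1 comp3.2) Finset.card_le_three
  have hge : 3 ≤ ir (G1 ⊔ SimpleGraph.edge 0 2) :=
    three_le_ir (rep_add rep1 (by decide)) comp4
  omega

theorem crit2 : EdgeCritical ir G2 := by
  intro u v huv hadj
  obtain ⟨a, b, h1, h2⟩ := comp6 u v (nonadj2 huv hadj)
  have h3 : 3 ≤ ir G2 := three_le_ir rep2 comp5
  have := ir_le (rep_add rep2 huv) {a, b} h1 h2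
  have : ({a, b} : Finset (Fin 10)).card ≤ 2 := Finset.card_le_two
  omega

theorem not_crit2 : ¬ EdgeCritical gamma G2 := by
  intro h
  have h37 := h 3 7 (by decide) (by
    show ¬ ((mask2 3).testBit (7 : Fin 10) = true)
    decide +kernel)
  have hle : gamma G2 ≤ 3 := le_trans (gamma_le rep2 {0, 1, 3} comp7) Finset.card_le_three
  have hge : 3 ≤ gamma (G2 ⊔ SimpleGraph.edge 3 7) :=
    three_le_gamma (rep_add rep2 (by decide)) comp8
  omega

/-- **Answer (YES to both questions).** There is a (connected) graph that is `γ`-edge-critical but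
not `ir`-edge-critical, and there is a (connected) graph that is `ir`-edge-critical but not
`γ`-edge-critical. -/
theorem result :
    (∃ (n : ℕ) (G : SimpleGraph (Fin n)), G.Connected ∧ EdgeCritical gamma G ∧
      ¬ EdgeCritical ir G) ∧
    (∃ (n : ℕ) (G : SimpleGraph (Fin n)), G.Connected ∧ EdgeCritical ir G ∧
      ¬ EdgeCritical gamma G) :=
  ⟨⟨12, G1, connected1, crit1, not_crit1⟩, ⟨10, G2, connected2, crit2, not_crit2⟩⟩

end Pool.Agent.Results.MP_7f565b_co.TwoClasses
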